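import Mathlib

/-!
# Abstract estimates for the curvature of a tube around a normal direction
-/

open scoped InnerProductSpace Topology ContDiff

noncomputable section

namespace Pool.Agent.helper29.MC

variable {H : Type*} [NormedAddCommGroup H] [InnerProductSpace ℝ H]

/-- If the tangent space contains `Rᗮ ∩ vᗮ`, then the normal part of `q` is controlled by the
projection on `R` and the component along the unit vector `v ∈ Rᗮ`. -/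
theorem normal_le [FiniteDimensional ℝ H] (R T : Submodule ℝ H) (v q : H) (hv : ‖v‖ = 1)
    (hvR : v ∈ Rᗮ) (hT : ∀ w ∈ Rᗮ, ⟪v, w⟫_ℝ = 0 → w ∈ T) :
    ‖(Tᗮ).starProjection q‖ ≤ ‖R.starProjection q‖ + |⟪v, q⟫_ℝ| := by
  have h1 : q - R.starProjection q - ⟪v, q⟫_ℝ • v ∈ T := by
    apply hT
    · exact Submodule.sub_mem _ (R.sub_starProjection_mem_orthogonal q) (Submodule.smul_mem _ _ hvR)
    · have h2 : ⟪v, R.starProjection q⟫_ℝ = 0 :=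
        Submodule.inner_left_of_mem_orthogonal (R.starProjection_apply_mem q) hvR
      rw [inner_sub_right, inner_sub_right, h2, inner_smul_right, real_inner_self_eq_norm_sq, hv]
      ring
  have h3 : (Tᗮ).starProjection (q - R.starProjection q - ⟪v, q⟫_ℝ • v) = 0 := by
    rw [Submodule.starProjection_apply_eq_zero_iff, Submodule.orthogonal_orthogonal]
    exact h1
  have h4 : (Tᗮ).starProjection q =
      (Tᗮ).starProjection (R.starProjection q) + (Tᗮ).starProjection (⟪v, q⟫_ℝ • v) := by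
    have h5 : q = R.starProjection q + ⟪v, q⟫_ℝ • v +
        (q - R.starProjection q - ⟪v, q⟫_ℝ • v) := by abel
    conv_lhs => rw [h5]
    rw [map_add, map_add, h3, add_zero]
  rw [h4]
  refine (norm_add_le _ _).trans (add_le_add ?_ ?_)
  · exact Submodule.norm_starProjection_apply_le _ _
  · refine (Submodule.norm_starProjection_apply_le _ _).trans ?_
    rw [norm_smul, hv, mul_one, Real.norm_eq_abs]

/-- The projection on the range of an isometry. -/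
theorem proj_le [FiniteDimensional ℝ H] {E : Type*} [NormedAddCommGroup E] [InnerProductSpace ℝ E]
    (J : E →ₗ[ℝ] H) (hJ : ∀ e, ‖J e‖ = ‖e‖) (q : H) {B : ℝ} (hB0 : 0 ≤ B)
    (hB : ∀ e, |⟪J e, q⟫_ℝ| ≤ B * ‖e‖) : ‖(LinearMap.range J).starProjection q‖ ≤ B := by
  obtain ⟨e, he⟩ : ∃ e, J e = (LinearMap.range J).starProjection q :=
    (LinearMap.range J).starProjection_apply_mem q
  set r := (LinearMap.range J).starProjection q with hr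
  have h1 : ‖r‖ ^ 2 = ⟪J e, q⟫_ℝ := by
    have h2 : ⟪r, q - r⟫_ℝ = 0 :=
      Submodule.inner_right_of_mem_orthogonal (by rw [← he]; exact ⟨e, rfl⟩)
        ((LinearMap.range J).sub_starProjection_mem_orthogonal q)
    rw [inner_sub_right, real_inner_self_eq_norm_sq] at h2
    rw [he]
    linarith
  have h3 : ‖r‖ ^ 2 ≤ B * ‖r‖ := by
    rw [h1, ← he, hJ e]
    exact (le_abs_self _).trans (hB e)
  rcases (norm_nonneg r).eq_or_lt with h | h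
  · rw [← h]
    exact hB0
  · nlinarith

theorem le_proj [FiniteDimensional ℝ H] (R : Submodule ℝ H) (r q : H) (hr : r ∈ R) :
    |⟪r, q⟫_ℝ| ≤ ‖r‖ * ‖R.starProjection q‖ := by
  have h1 : ⟪r, q⟫_ℝ = ⟪r, R.starProjection q⟫_ℝ := by
    have h2 : ⟪r, q - R.starProjection q⟫_ℝ = 0 :=
      Submodule.inner_right_of_mem_orthogonal hr (R.sub_starProjection_mem_orthogonal q)
    rw [inner_sub_right] at h2
    linarith
  rw [h1]
  exact abs_real_inner_le_norm _ _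

/-- Algebraic form of the curvature estimate for `p = φ + ρ v`.  `φ1, φ2, v0, v1, v2, J0, J1, J2` are the values
and derivatives at one time of `φ`, of the unit normal direction `v` and of the frame `J`; `X` is the speed. -/
theorem tube_estimate [FiniteDimensional ℝ H] {E : Type*} [NormedAddCommGroup E]
    [InnerProductSpace ℝ E] (J0 J1 J2 : E →ₗ[ℝ] H) (φ1 φ2 v0 v1 v2 : H) (e0 : E) (T : Submodule ℝ H)
    {ρ X C1 C2 C3 C4 : ℝ} (hρ : 0 < ρ) (hX : 0 ≤ X) (hC1 : 0 ≤ C1) (hC2 : 0 ≤ C2) (hC3 : 0 ≤ C3)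
    (hC4 : 0 ≤ C4) (hρC : ρ * C2 ≤ 1 / 2)
    (hv0 : ‖v0‖ = 1) (hv2 : ⟪v0, v2⟫_ℝ = -‖v1‖ ^ 2)
    (hJ0 : ∀ e, ‖J0 e‖ = ‖e‖) (h0 : ∀ e, ⟪v0, J0 e⟫_ℝ = 0)
    (h1 : ∀ e, ⟪v1, J0 e⟫_ℝ + ⟪v0, J1 e⟫_ℝ = 0)
    (h2 : ∀ e, ⟪v2, J0 e⟫_ℝ + 2 * ⟪v1, J1 e⟫_ℝ + ⟪v0, J2 e⟫_ℝ = 0)
    (hJ1 : ∀ e, ‖J1 e‖ ≤ C2 * X * ‖e‖) (hJ2 : ∀ e, ‖J2 e‖ ≤ C3 * X ^ 2 * ‖e‖)
    (he0 : ‖e0‖ = X) (hφ : ⟪J0 e0, φ1⟫_ℝ = X ^ 2) (hφ1 : ‖φ1‖ ≤ C4 * X) (hφ2 : ‖φ2‖ ≤ C1 * X ^ 2)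
    (hT : ∀ w, (∀ e, ⟪J0 e, w⟫_ℝ = 0) → ⟪v0, w⟫_ℝ = 0 → w ∈ T) :
    X ≤ 2 * ‖φ1 + ρ • v1‖ ∧ ρ * ‖v1‖ ≤ (1 + 2 * C4) * ‖φ1 + ρ • v1‖ ∧
    ‖(Tᗮ).starProjection (φ2 + ρ • v2)‖ ≤
      (8 * C1 + 4 * C2 * (1 + 2 * C4) + 4 * ρ * C3 + (1 + 2 * C4) ^ 2 / ρ) * ‖φ1 + ρ • v1‖ ^ 2 := by
  set a := ‖φ1 + ρ • v1‖ with ha
  have ha0 : 0 ≤ a := norm_nonneg _
  have hv1J : ∀ e, |⟪v1, J0 e⟫_ℝ| ≤ C2 * X * ‖e‖ := by
    intro e
    have e1 : ⟪v1, J0 e⟫_ℝ = -⟪v0, J1 e⟫_ℝ := by linarith [h1 e]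
    rw [e1, abs_neg]
    refine (abs_real_inner_le_norm _ _).trans ?_
    rw [hv0, one_mul]
    exact hJ1 e
  -- first estimate
  have hXa : X ≤ 2 * a := by
    rcases hX.eq_or_lt with h | h
    · rw [← h]
      positivity
    · have e1 : ⟪J0 e0, φ1 + ρ • v1⟫_ℝ = X ^ 2 + ρ * ⟪v1, J0 e0⟫_ℝ := by
        rw [inner_add_right, inner_smul_right, hφ, real_inner_comm]
      have e2 : |⟪J0 e0, φ1 + ρ • v1⟫_ℝ| ≤ X * a := by
        refine (abs_real_inner_le_norm _ _).trans ?_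
        rw [hJ0, he0]
      have e3 := hv1J e0
      rw [he0] at e3
      have e4 := (abs_le.1 e3).1
      have e5 := (abs_le.1 e2).2
      rw [e1] at e5
      have e6 : ρ * (-(C2 * X * X)) ≤ ρ * ⟪v1, J0 e0⟫_ℝ := mul_le_mul_of_nonneg_left e4 hρ.le
      have e7 : ρ * C2 * (X * X) ≤ 1 / 2 * (X * X) := mul_le_mul_of_nonneg_right hρC (by positivity)
      have e8 : X * X ≤ X * (2 * a) := by nlinarith
      exact le_of_mul_le_mul_left e8 h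
  -- second estimate
  have hv1a : ρ * ‖v1‖ ≤ (1 + 2 * C4) * a := by
    have e1 : ρ • v1 = (φ1 + ρ • v1) - φ1 := by abel
    have e2 : ρ * ‖v1‖ = ‖ρ • v1‖ := by rw [norm_smul, Real.norm_of_nonneg hρ.le]
    rw [e2, e1]
    refine (norm_sub_le _ _).trans ?_
    have e3 : C4 * X ≤ C4 * (2 * a) := mul_le_mul_of_nonneg_left hXa hC4
    linarith
  refine ⟨hXa, hv1a, ?_⟩
  have hv1n : 0 ≤ ‖v1‖ := norm_nonneg _
  have hX2 : X ^ 2 ≤ 4 * a ^ 2 := by nlinarith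
  have hvR : v0 ∈ (LinearMap.range J0)ᗮ := by
    rw [Submodule.mem_orthogonal]
    rintro _ ⟨e, rfl⟩
    rw [real_inner_comm]
    exact h0 e
  have hN := normal_le (LinearMap.range J0) T v0 (φ2 + ρ • v2) hv0 hvR (by
    intro w hw hw0
    apply hT w _ hw0
    intro e
    exact Submodule.inner_right_of_mem_orthogonal (LinearMap.mem_range_self J0 e) hw)
  refine hN.trans ?_
  -- tangential projection
  have hP : ‖(LinearMap.range J0).starProjection (φ2 + ρ • v2)‖ ≤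
      C1 * X ^ 2 + ρ * (2 * (‖v1‖ * (C2 * X)) + C3 * X ^ 2) := by
    apply proj_le J0 hJ0 _ (by positivity)
    intro e
    rw [inner_add_right, inner_smul_right]
    have e1 : |⟪J0 e, φ2⟫_ℝ| ≤ C1 * X ^ 2 * ‖e‖ := by
      refine (abs_real_inner_le_norm _ _).trans ?_
      rw [hJ0, mul_comm]
      exact mul_le_mul_of_nonneg_right hφ2 (norm_nonneg _)
    have e2 : |⟪J0 e, v2⟫_ℝ| ≤ (2 * (‖v1‖ * (C2 * X)) + C3 * X ^ 2) * ‖e‖ := by
      have e3 : ⟪J0 e, v2⟫_ℝ = -(2 * ⟪v1, J1 e⟫_ℝ + ⟪v0, J2 e⟫_ℝ) := by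
        rw [real_inner_comm]
        linarith [h2 e]
      rw [e3, abs_neg]
      have e4 : |⟪v1, J1 e⟫_ℝ| ≤ ‖v1‖ * (C2 * X * ‖e‖) :=
        (abs_real_inner_le_norm _ _).trans (mul_le_mul_of_nonneg_left (hJ1 e) hv1n)
      have e5 : |⟪v0, J2 e⟫_ℝ| ≤ C3 * X ^ 2 * ‖e‖ := by
        refine (abs_real_inner_le_norm _ _).trans ?_
        rw [hv0, one_mul]
        exact hJ2 e
      have e6 := abs_le.1 e4
      have e7 := abs_le.1 e5
      rw [abs_le]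
      constructor <;> nlinarith
    have e3 := abs_le.1 e1
    have e4 := abs_le.1 e2
    have e5 : ρ * ⟪J0 e, v2⟫_ℝ ≤ ρ * ((2 * (‖v1‖ * (C2 * X)) + C3 * X ^ 2) * ‖e‖) :=
      mul_le_mul_of_nonneg_left e4.2 hρ.le
    have e6 : ρ * -((2 * (‖v1‖ * (C2 * X)) + C3 * X ^ 2) * ‖e‖) ≤ ρ * ⟪J0 e, v2⟫_ℝ :=
      mul_le_mul_of_nonneg_left e4.1 hρ.le
    rw [abs_le]
    constructor <;> nlinarith
  -- component along `v0`
  have hV : |⟪v0, φ2 + ρ • v2⟫_ℝ| ≤ C1 * X ^ 2 + ρ * ‖v1‖ ^ 2 := by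
    rw [inner_add_right, inner_smul_right, hv2]
    have e1 : |⟪v0, φ2⟫_ℝ| ≤ C1 * X ^ 2 := by
      refine (abs_real_inner_le_norm _ _).trans ?_
      rw [hv0, one_mul]
      exact hφ2
    have e2 := abs_le.1 e1
    have e3 : 0 ≤ ρ * ‖v1‖ ^ 2 := by positivity
    rw [abs_le]
    constructor <;> nlinarith
  have hA : ρ * ‖v1‖ ^ 2 ≤ (1 + 2 * C4) ^ 2 / ρ * a ^ 2 := by
    rw [div_mul_eq_mul_div, le_div_iff₀ hρ]
    have : (ρ * ‖v1‖) ^ 2 ≤ ((1 + 2 * C4) * a) ^ 2 := pow_le_pow_left₀ (by positivity) hv1a 2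
    nlinarith
  have hB : ρ * ‖v1‖ * (2 * (C2 * X)) ≤ (1 + 2 * C4) * a * (2 * (C2 * (2 * a))) := by
    apply mul_le_mul hv1a _ (by positivity) (by positivity)
    have : C2 * X ≤ C2 * (2 * a) := mul_le_mul_of_nonneg_left hXa hC2
    linarith
  have hC : C1 * X ^ 2 ≤ C1 * (4 * a ^ 2) := mul_le_mul_of_nonneg_left hX2 hC1
  have hD : ρ * C3 * X ^ 2 ≤ ρ * C3 * (4 * a ^ 2) := mul_le_mul_of_nonneg_left hX2 (by positivity)
  have := add_le_add hP hV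
  refine this.trans ?_
  have e9 : (8 * C1 + 4 * C2 * (1 + 2 * C4) + 4 * ρ * C3 + (1 + 2 * C4) ^ 2 / ρ) * a ^ 2 =
      2 * (C1 * (4 * a ^ 2)) + (1 + 2 * C4) * a * (2 * (C2 * (2 * a))) + ρ * C3 * (4 * a ^ 2) +
        (1 + 2 * C4) ^ 2 / ρ * a ^ 2 := by ring
  rw [e9]
  linarith

end Pool.Agent.helper29.MC
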