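import Pool.Agent.helper8.MC.Flat

/-!
# The normal part of the acceleration of a curve
-/

open scoped Manifold ContDiff Topology InnerProductSpace

noncomputable section

namespace Pool.Agent.helper29.MC

open Pool.Agent.helper8.MC

variable {m N : ℕ}

/-- first derivative of a composition with a curve -/
theorem deriv_comp_curve {g : Eu m → Eu N} {x : ℝ → Eu m} {t : ℝ}
    (hg : DifferentiableAt ℝ g (x t)) (hx : DifferentiableAt ℝ x t) :
    deriv (g ∘ x) t = fderiv ℝ g (x t) (deriv x t) :=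
  (hg.hasFDerivAt.comp_hasDerivAt t hx.hasDerivAt).deriv

/-- second derivative of a composition with a curve -/
theorem iteratedDeriv_comp_curve {g : Eu m → Eu N} {x : ℝ → Eu m} {t : ℝ}
    (hg : ContDiffAt ℝ 2 g (x t)) (hx : ContDiffAt ℝ 2 x t) :
    iteratedDeriv 2 (g ∘ x) t =
      fderiv ℝ (fun z => fderiv ℝ g z (deriv x t)) (x t) (deriv x t) +
        fderiv ℝ g (x t) (iteratedDeriv 2 x t) := by
  have e2 : ∀ f : ℝ → Eu N, iteratedDeriv 2 f t = deriv (deriv f) t := fun f => by
    rw [iteratedDeriv_succ, iteratedDeriv_one]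
  have e2' : ∀ f : ℝ → Eu m, iteratedDeriv 2 f t = deriv (deriv f) t := fun f => by
    rw [iteratedDeriv_succ, iteratedDeriv_one]
  rw [e2, e2']
  have hx1 : ∀ᶠ s in 𝓝 t, ContDiffAt ℝ 2 x s := hx.eventually (by norm_num)
  have hg1 : ∀ᶠ s in 𝓝 t, ContDiffAt ℝ 2 g (x s) :=
    hx.continuousAt.eventually (hg.eventually (by norm_num))
  have h1 : deriv (g ∘ x) =ᶠ[𝓝 t] fun s => fderiv ℝ g (x s) (deriv x s) := by
    filter_upwards [hx1, hg1] with s hs1 hs2
    exact deriv_comp_curve (hs2.differentiableAt (by norm_num)) (hs1.differentiableAt (by norm_num))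
  rw [h1.deriv_eq]
  have hdg : DifferentiableAt ℝ (fderiv ℝ g) (x t) :=
    (hg.fderiv_right (m := 1) (by norm_num)).differentiableAt (by norm_num)
  have hdx : DifferentiableAt ℝ (deriv x) t := by
    have h2 : ContDiffAt ℝ 1 (fderiv ℝ x) t := hx.fderiv_right (m := 1) (by norm_num)
    have h3 : DifferentiableAt ℝ (fderiv ℝ x) t := h2.differentiableAt (by norm_num)
    have h4 : deriv x = fun s => fderiv ℝ x s 1 := by
      funext s
      exact (fderiv_apply_one_eq_deriv).symm
    rw [h4]
    exact h3.clm_apply (differentiableAt_const _)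
  have hxd : HasDerivAt x (deriv x t) t := (hx.differentiableAt (by norm_num)).hasDerivAt
  have h5 : HasDerivAt (fun s => fderiv ℝ g (x s)) (fderiv ℝ (fderiv ℝ g) (x t) (deriv x t)) t :=
    hdg.hasFDerivAt.comp_hasDerivAt t hxd
  have h6 : HasDerivAt (fun s => fderiv ℝ g (x s) (deriv x s))
      (fderiv ℝ (fderiv ℝ g) (x t) (deriv x t) (deriv x t) + fderiv ℝ g (x t) (deriv (deriv x) t)) t :=
    h5.clm_apply hdx.hasDerivAt
  rw [h6.deriv]
  congr 1
  have h7 : HasFDerivAt (fun z => fderiv ℝ g z (deriv x t))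
      ((fderiv ℝ (fderiv ℝ g) (x t)).flip (deriv x t)) (x t) := by
    have := hdg.hasFDerivAt.clm_apply (hasFDerivAt_const (deriv x t) (x t))
    rw [ContinuousLinearMap.comp_zero, zero_add] at this
    exact this
  rw [h7.fderiv]
  rfl

/-- The normal part of the acceleration of `g ∘ x` only depends on the velocity of `x`. -/
theorem nII_curve {g : Eu m → Eu N} {x : ℝ → Eu m} {t : ℝ}
    (hg : ContDiffAt ℝ 2 g (x t)) (hx : ContDiffAt ℝ 2 x t) :
    ((LinearMap.range (fderiv ℝ g (x t)).toLinearMap)ᗮ).starProjection (iteratedDeriv 2 (g ∘ x) t) =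
      nII g (x t) (deriv x t) := by
  rw [iteratedDeriv_comp_curve hg hx, map_add]
  unfold nII
  have h1 : ((LinearMap.range (fderiv ℝ g (x t)).toLinearMap)ᗮ).starProjection
      (fderiv ℝ g (x t) (iteratedDeriv 2 x t)) = 0 := by
    rw [Submodule.starProjection_apply_eq_zero_iff, Submodule.orthogonal_orthogonal]
    exact ⟨_, rfl⟩
  rw [h1, add_zero]

end Pool.Agent.helper29.MC
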