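import Mathlib

/-!
# Derivatives of a constant inner product
-/

open scoped InnerProductSpace Topology ContDiff

noncomputable section

namespace Pool.Agent.helper29.MC

variable {H : Type*} [NormedAddCommGroup H] [InnerProductSpace ℝ H]

theorem iteratedDeriv_two {E : Type*} [NormedAddCommGroup E] [NormedSpace ℝ E] (f : ℝ → E) (t : ℝ) :
    iteratedDeriv 2 f t = deriv (deriv f) t := by
  rw [iteratedDeriv_succ, iteratedDeriv_one]

theorem differentiableAt_deriv {E : Type*} [NormedAddCommGroup E] [NormedSpace ℝ E] {f : ℝ → E}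
    {t : ℝ} (hf : ContDiffAt ℝ 2 f t) : DifferentiableAt ℝ (deriv f) t := by
  have h2 : ContDiffAt ℝ 1 (fderiv ℝ f) t := hf.fderiv_right (m := 1) (by norm_num)
  have h3 : DifferentiableAt ℝ (fderiv ℝ f) t := h2.differentiableAt (by norm_num)
  have h4 : deriv f = fun s => fderiv ℝ f s 1 := by
    funext s
    exact (fderiv_apply_one_eq_deriv).symm
  rw [h4]
  exact h3.clm_apply (differentiableAt_const _)

/-- First and second derivative of an inner product that is constant near `t`. -/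
theorem inner_rel {a b : ℝ → H} {t c : ℝ} (ha : ContDiffAt ℝ 2 a t) (hb : ContDiffAt ℝ 2 b t)
    (h : ∀ᶠ s in 𝓝 t, ⟪a s, b s⟫_ℝ = c) :
    ⟪deriv a t, b t⟫_ℝ + ⟪a t, deriv b t⟫_ℝ = 0 ∧
    ⟪iteratedDeriv 2 a t, b t⟫_ℝ + 2 * ⟪deriv a t, deriv b t⟫_ℝ + ⟪a t, iteratedDeriv 2 b t⟫_ℝ = 0 := by
  have ha1 : ∀ᶠ s in 𝓝 t, DifferentiableAt ℝ a s :=
    (ha.eventually (by norm_num)).mono fun s hs => hs.differentiableAt (by norm_num)
  have hb1 : ∀ᶠ s in 𝓝 t, DifferentiableAt ℝ b s :=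
    (hb.eventually (by norm_num)).mono fun s hs => hs.differentiableAt (by norm_num)
  have h0 : (fun s => ⟪a s, b s⟫_ℝ) =ᶠ[𝓝 t] fun _ => c := h
  have h1 : ∀ᶠ s in 𝓝 t, ⟪deriv a s, b s⟫_ℝ + ⟪a s, deriv b s⟫_ℝ = 0 := by
    filter_upwards [ha1, hb1, h0.deriv] with s hs1 hs2 hs3
    have e1 := (hs1.hasDerivAt.inner ℝ hs2.hasDerivAt).deriv
    rw [hs3, deriv_const] at e1
    linarith
  refine ⟨h1.self_of_nhds, ?_⟩
  have h2 : (fun s => ⟪deriv a s, b s⟫_ℝ + ⟪a s, deriv b s⟫_ℝ) =ᶠ[𝓝 t] fun _ => 0 := h1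
  have h3 := h2.deriv_eq
  rw [deriv_const] at h3
  have da := (differentiableAt_deriv ha).hasDerivAt
  have db := (differentiableAt_deriv hb).hasDerivAt
  have e1 := ((da.inner ℝ hb1.self_of_nhds.hasDerivAt).add
    (ha1.self_of_nhds.hasDerivAt.inner ℝ db)).deriv
  rw [iteratedDeriv_two, iteratedDeriv_two]
  have e2 : (fun s => ⟪deriv a s, b s⟫_ℝ + ⟪a s, deriv b s⟫_ℝ) =
      ((fun s => ⟪deriv a s, b s⟫_ℝ) + fun s => ⟪a s, deriv b s⟫_ℝ) := rfl
  rw [e2, e1] at h3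
  linarith

/-- Relations for a unit vector field along a curve. -/
theorem unit_rel {a : ℝ → H} {t : ℝ} (ha : ContDiffAt ℝ 2 a t) (h : ∀ᶠ s in 𝓝 t, ‖a s‖ = 1) :
    ⟪a t, deriv a t⟫_ℝ = 0 ∧ ⟪a t, iteratedDeriv 2 a t⟫_ℝ = -‖deriv a t‖ ^ 2 := by
  have h1 : ∀ᶠ s in 𝓝 t, ⟪a s, a s⟫_ℝ = 1 := by
    filter_upwards [h] with s hs
    rw [real_inner_self_eq_norm_sq, hs]
    norm_num
  obtain ⟨e1, e2⟩ := inner_rel ha ha h1
  rw [real_inner_comm] at e1
  rw [real_inner_comm, real_inner_self_eq_norm_sq] at e2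
  constructor <;> linarith

end Pool.Agent.helper29.MC
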